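import Pool.Agent.R893.LR.Neg

/-!
# MP_de6c1e_al, Q1: a limit direction which is neither unimodular nor a limit root
-/

namespace Pool.Agent.Results.MP_de6c1e_al.IdealTriangle

open Pool.Agent.R893.LR

/-- **Q1 has a negative answer**: there is a Lorentzian geometric Coxeter system and a limit
direction which lies neither in `U_hyp` nor in `E_Φ`. (The system is the universal Coxeter system
of rank three with all `B_{st} = -1`, and the limit direction is a simple root.) -/
theorem result : ∃ (n : ℕ) (C : GeomCoxeter n), C.Lorentzian ∧
    ∃ x ∈ C.limitDirections, x ∉ C.Uhyp ∧ x ∉ C.limitRoots :=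
  ⟨3, tri, tri_lorentzian, limPt, ⟨basePt, limPt_mem⟩, limPt_not_Uhyp, limPt_not_limitRoot⟩

end Pool.Agent.Results.MP_de6c1e_al.IdealTriangle
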